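import Mathlib
import Pool.Agent.H759R2.Kad.Props3

/-! Kadison project, task 06: the word lemma (helper674). -/

open scoped ComplexOrder InnerProductSpace ComplexConjugate
open Finset

set_option linter.unusedSectionVars false
set_option linter.unusedVariables false
set_option linter.unusedSimpArgs false

noncomputable section

namespace H759R2.Kad

universe u v

namespace A06

section tracial

variable {B : Type u} [CStarAlgebra B] {τ : B →ₗ[ℂ] ℂ}

theorem tau_star (hτ : IsTracialState τ) (y : B) : τ (star y) = conj (τ y) := by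
  have him : ∀ a : B, (τ (star a * a)).im = 0 := by
    intro a
    have := (Complex.le_def.1 (hτ.pos a)).2
    simpa using this.symm
  have h1 := him (1 + y)
  have h2 := him (1 + Complex.I • y)
  have h3 := him y
  have e1 : star (1 + y) * (1 + y) = 1 + y + star y + star y * y := by
    rw [star_add, star_one]
    noncomm_ring
  have e2 : star (1 + Complex.I • y) * (1 + Complex.I • y) =
      1 + Complex.I • y - Complex.I • star y + star y * y := by
    rw [star_add, star_one, star_smul, Complex.star_def, Complex.conj_I]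
    rw [add_mul, mul_add, mul_add, one_mul, one_mul, mul_one, smul_mul_smul_comm]
    have : -Complex.I * Complex.I = 1 := by
      rw [neg_mul, Complex.I_mul_I, neg_neg]
    rw [this, one_smul, neg_smul]
    abel
  rw [e1, map_add, map_add, map_add, hτ.one] at h1
  rw [e2, map_add, map_sub, map_add, map_smul, map_smul, hτ.one] at h2
  simp only [Complex.add_im, Complex.one_im, h3] at h1
  simp only [Complex.add_im, Complex.sub_im, Complex.one_im, h3, smul_eq_mul, Complex.mul_im,
    Complex.I_re, Complex.I_im] at h2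
  apply Complex.ext
  · rw [Complex.conj_re]
    linarith
  · rw [Complex.conj_im]
    linarith

variable [PartialOrder B] [StarOrderedRing B]

theorem tau_norm_le (hτ : IsTracialState τ) (y : B) : ‖τ y‖ ≤ ‖y‖ := by
  have h1 := hτ.pos (y - algebraMap ℂ B (τ y))
  have e1 : star (y - algebraMap ℂ B (τ y)) * (y - algebraMap ℂ B (τ y)) =
      star y * y - (τ y) • star y - (conj (τ y)) • y + (conj (τ y) * τ y) • (1 : B) := by
    rw [Algebra.algebraMap_eq_smul_one, star_sub, star_smul, star_one, Complex.star_def]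
    rw [sub_mul, mul_sub, mul_sub, mul_smul_comm, mul_one, smul_mul_assoc, one_mul,
      smul_mul_smul_comm, one_mul]
    abel
  rw [e1, map_add, map_sub, map_sub, map_smul, map_smul, map_smul, hτ.one, tau_star hτ] at h1
  have h2 := Col.state_bound τ hτ (star y * y) (star_mul_self_nonneg y)
  rw [CStarRing.norm_star_mul_self] at h2
  have h3 : (τ (star y * y)).re ≤ ‖y‖ * ‖y‖ := le_trans (Complex.re_le_norm _) h2
  have h4 : 0 ≤ (τ (star y * y)).re - ‖τ y‖ ^ 2 := by
    have h5 := (Complex.le_def.1 h1).1
    have e2 : (conj (τ y) * τ y).re = ‖τ y‖ ^ 2 := by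
      rw [← Complex.normSq_eq_conj_mul_self, Complex.ofReal_re, Complex.normSq_eq_norm_sq]
    have e3 : (τ y * conj (τ y)).re = ‖τ y‖ ^ 2 := by rw [mul_comm, e2]
    simp only [Complex.add_re, Complex.sub_re, Complex.zero_re, smul_eq_mul, mul_one] at h5
    rw [e2, e3] at h5
    linarith
  nlinarith [norm_nonneg (τ y), norm_nonneg y]

theorem pmat_cast (hτ : IsTracialState τ) {n : ℕ} (x : CStarMatrix (Fin n) (Fin n) B)
    (i j : Fin n) : ((pmat τ x i j : ℝ) : ℂ) = τ (star (x i j) * x i j) := by
  have h := hτ.pos (x i j)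
  unfold pmat
  apply Complex.ext
  · simp
  · have := (Complex.le_def.1 h).2
    simpa using this

theorem pmat_nonneg (hτ : IsTracialState τ) {n : ℕ} (x : CStarMatrix (Fin n) (Fin n) B)
    (i j : Fin n) : 0 ≤ pmat τ x i j := by
  have := (Complex.le_def.1 (hτ.pos (x i j))).1
  simpa [pmat] using this

theorem pmat_le_one (hτ : IsTracialState τ) {n : ℕ} (x : CStarMatrix (Fin n) (Fin n) B)
    (hx : ∀ i j, ‖x i j‖ ≤ 1) (i j : Fin n) : pmat τ x i j ≤ 1 := by
  have h1 := tau_norm_le hτ (star (x i j) * x i j)
  rw [CStarRing.norm_star_mul_self] at h1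
  have h2 := Complex.re_le_norm (τ (star (x i j) * x i j))
  have h3 := hx i j
  have h4 := norm_nonneg (x i j)
  unfold pmat
  nlinarith

end tracial

section words

variable {B : Type u} [CStarAlgebra B] {n : ℕ}

/-- The last letter of a word. -/
def lst : Fin n → List (Fin n) → Fin n
  | i, [] => i
  | _, c :: l => lst c l

theorem rword_append (x : CStarMatrix (Fin n) (Fin n) B) (g : Fin n → unitary B) (c : Fin n)
    (l2 : List (Fin n)) : ∀ (l : List (Fin n)) (i : Fin n), rword x g i (l ++ c :: l2) =
      rword x g i l * x (lst i l) c * (g c : B) * rword x g c l2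
  | [], i => by simp [rword, lst]
  | a :: l, i => by
    rw [List.cons_append, rword, rword_append x g c l2 l a, rword, lst]
    simp only [mul_assoc]

theorem pword_append (p : Fin n → Fin n → ℝ) (c : Fin n)
    (l2 : List (Fin n)) : ∀ (l : List (Fin n)) (i : Fin n), pword p i (l ++ c :: l2) =
      pword p i l * p (lst i l) c * pword p c l2
  | [], i => by simp [pword, lst]
  | a :: l, i => by
    rw [List.cons_append, pword, pword_append p c l2 l a, pword, lst]
    simp only [mul_assoc]

theorem nm {a b : B} (ha : ‖a‖ ≤ 1) (hb : ‖b‖ ≤ 1) : ‖a * b‖ ≤ 1 :=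
  (norm_mul_le a b).trans (mul_le_one₀ ha (norm_nonneg b) hb)

theorem nst {a : B} (ha : ‖a‖ ≤ 1) : ‖star a‖ ≤ 1 := by rwa [norm_star]

theorem norm_rword_le (x : CStarMatrix (Fin n) (Fin n) B) (hx : ∀ i j, ‖x i j‖ ≤ 1)
    (g : Fin n → unitary B) : ∀ (l : List (Fin n)) (i : Fin n), ‖rword x g i l‖ ≤ 1
  | [], i => Col.norm_one_le
  | c :: l, i => nm (nm (hx i c) (Col.norm_unitary_le _)) (norm_rword_le x hx g l c)

theorem rword_congr (x : CStarMatrix (Fin n) (Fin n) B) (g g' : Fin n → unitary B) :
    ∀ (l : List (Fin n)) (i : Fin n), (∀ c ∈ l, g c = g' c) → rword x g i l = rword x g' i l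
  | [], i, _ => rfl
  | c :: l, i, h => by
    rw [rword, rword, h c (List.mem_cons_self ..),
      rword_congr x g g' l c fun d hd => h d (List.mem_cons_of_mem _ hd)]

theorem pword_nonneg (p : Fin n → Fin n → ℝ) (hp : ∀ i j, 0 ≤ p i j) :
    ∀ (l : List (Fin n)) (i : Fin n), 0 ≤ pword p i l
  | [], i => zero_le_one
  | c :: l, i => mul_nonneg (hp i c) (pword_nonneg p hp l c)

theorem pword_le_one (p : Fin n → Fin n → ℝ) (hp : ∀ i j, 0 ≤ p i j) (hp1 : ∀ i j, p i j ≤ 1) :
    ∀ (l : List (Fin n)) (i : Fin n), pword p i l ≤ 1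
  | [], i => le_refl _
  | c :: l, i => mul_le_one₀ (hp1 i c) (pword_nonneg p hp l c) (pword_le_one p hp hp1 l c)

variable {F : Fam B n} {X : Set B}

theorem iw_mul {K1 K2 : ℕ} {c : Fin n} {a b : B} (ha : F.IsWord X K1 c a)
    (hb : F.IsWord X K2 c b) : F.IsWord X (K1 + K2) c (a * b) := by
  obtain ⟨l1, h1, e1, f1⟩ := ha
  obtain ⟨l2, h2, e2, f2⟩ := hb
  refine ⟨l1 ++ l2, ?_, ?_, ?_⟩
  · rw [List.length_append]; omega
  · rw [List.prod_append, e1, e2]
  · intro y hy
    rcases List.mem_append.mp hy with h | h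
    · exact f1 y h
    · exact f2 y h

theorem star_list_prod' (l : List B) : star l.prod = (l.map star).reverse.prod := by
  induction l with
  | nil => simp
  | cons a l ih => simp [ih]

theorem iw_star {K : ℕ} {c : Fin n} {a : B} (ha : F.IsWord X K c a) :
    F.IsWord X K c (star a) := by
  obtain ⟨l, h1, e1, f1⟩ := ha
  refine ⟨(l.map Star.star).reverse, ?_, ?_, ?_⟩
  · simpa using h1
  · rw [e1, star_list_prod']
  · intro y hy
    rw [List.mem_reverse, List.mem_map] at hy
    obtain ⟨z, hz, rfl⟩ := hy
    rcases f1 z hz with h | h | ⟨b, hb, s, h | h⟩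
    · right; left
      rwa [star_star]
    · left; exact h
    · right; right
      exact ⟨b, hb, s, Or.inr (by rw [h])⟩
    · right; right
      exact ⟨b, hb, s, Or.inl (by rw [h, star_star])⟩

theorem iw_mono {K K' : ℕ} {c : Fin n} {a : B} (ha : F.IsWord X K c a) (h : K ≤ K') :
    F.IsWord X K' c a := by
  obtain ⟨l, h1, e1, f1⟩ := ha
  exact ⟨l, h1.trans h, e1, f1⟩

theorem isWord_entry {x : CStarMatrix (Fin n) (Fin n) B}
    (hX : ∀ i j, x i j ∈ X ∨ star (x i j) ∈ X) (c i j : Fin n) : F.IsWord X 1 c (x i j) := by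
  refine ⟨[x i j], by simp, by simp, ?_⟩
  intro a ha
  rw [List.mem_singleton] at ha
  rw [ha]
  rcases hX i j with h | h
  · exact Or.inl h
  · exact Or.inr (Or.inl h)

theorem isWord_letter (s : F.Idx) {b c : Fin n} (h : b < c) :
    F.IsWord X 1 c (F.val s b : B) := by
  refine ⟨[(F.val s b : B)], by simp, by simp, ?_⟩
  intro a ha
  rw [List.mem_singleton] at ha
  rw [ha]
  exact Or.inr (Or.inr ⟨b, h, s b, Or.inl rfl⟩)

theorem isWord_rword {x : CStarMatrix (Fin n) (Fin n) B}
    (hX : ∀ i j, x i j ∈ X ∨ star (x i j) ∈ X) (s : F.Idx) (c : Fin n) :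
    ∀ (l : List (Fin n)) (i : Fin n), (∀ b ∈ l, b < c) →
      F.IsWord X (2 * l.length) c (rword x (F.val s) i l)
  | [], i, _ => ⟨[], by simp, by simp [rword], by simp⟩
  | b :: l, i, h => by
    have h1 := isWord_rword hX s c l b fun d hd => h d (List.mem_cons_of_mem _ hd)
    have h2 := iw_mul (iw_mul (isWord_entry (F := F) hX c i b)
      (isWord_letter (F := F) (X := X) s (h b (List.mem_cons_self ..)))) h1
    rw [rword, List.length_cons]
    exact iw_mono h2 (by omega)

theorem val_update_ne (s : F.Idx) {d c : Fin n} (h : c ≠ d) (t : Fin (F.k d + 1)) :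
    F.val (Function.update s d t) c = F.val s c := by
  unfold Fam.val
  rw [Function.update_of_ne h]

theorem val_update_self (s : F.Idx) (d : Fin n) (t : Fin (F.k d + 1)) :
    F.val (Function.update s d t) d = F.g d t := by
  unfold Fam.val
  rw [Function.update_self]

theorem rword_update (x : CStarMatrix (Fin n) (Fin n) B) (s : F.Idx) {d : Fin n}
    (t : Fin (F.k d + 1)) {l : List (Fin n)} (h : d ∉ l) (i : Fin n) :
    rword x (F.val (Function.update s d t)) i l = rword x (F.val s) i l := by
  apply rword_congr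
  intro c hc
  refine val_update_ne s (fun e => h ?_) t
  rwa [e] at hc

end words

section fav

variable {Ω : Type} [Fintype Ω]

theorem norm_fav_le {V : Type*} [NormedAddCommGroup V] [NormedSpace ℂ V] (f : Ω → V) {C : ℝ}
    (hC : 0 ≤ C) (h : ∀ s, ‖f s‖ ≤ C) : ‖fav Ω f‖ ≤ C := by
  unfold fav
  rw [norm_smul, norm_inv, Complex.norm_natCast]
  have h1 : ‖∑ s, f s‖ ≤ (Fintype.card Ω : ℝ) * C := by
    calc ‖∑ s, f s‖ ≤ ∑ s, ‖f s‖ := norm_sum_le _ _
      _ ≤ ∑ _s : Ω, C := Finset.sum_le_sum fun s _ => h s
      _ = (Fintype.card Ω : ℝ) * C := by simp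
  rcases Nat.eq_zero_or_pos (Fintype.card Ω) with h0 | h0
  · rw [h0]
    simpa using hC
  · have h2 : (0 : ℝ) < Fintype.card Ω := by exact_mod_cast h0
    rw [inv_mul_le_iff₀ h2]
    exact h1

theorem fav_sub {V : Type*} [AddCommGroup V] [Module ℂ V] (f g : Ω → V) :
    fav Ω (fun s => f s - g s) = fav Ω f - fav Ω g := by
  unfold fav
  rw [Finset.sum_sub_distrib, smul_sub]

theorem fav_map {V W : Type*} [AddCommGroup V] [Module ℂ V] [AddCommGroup W] [Module ℂ W]
    (L : V →ₗ[ℂ] W) (f : Ω → V) : L (fav Ω f) = fav Ω fun s => L (f s) := by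
  unfold fav
  rw [map_smul, map_sum]

theorem fav_const [Nonempty Ω] {V : Type*} [AddCommGroup V] [Module ℂ V] (v : V) :
    fav Ω (fun _ => v) = v := by
  unfold fav
  rw [Finset.sum_const, Finset.card_univ, ← Nat.cast_smul_eq_nsmul ℂ, smul_smul,
    inv_mul_cancel₀ (by exact_mod_cast Fintype.card_ne_zero), one_smul]

theorem fav_mul_mul {B : Type u} [CStarAlgebra B] (a b : B) (f : Ω → B) :
    fav Ω (fun s => a * f s * b) = a * fav Ω f * b := by
  unfold fav
  rw [mul_smul_comm, smul_mul_assoc, Finset.mul_sum, Finset.sum_mul]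

end fav

section main

variable {B : Type u} [CStarAlgebra B] [PartialOrder B] [StarOrderedRing B] {τ : B →ₗ[ℂ] ℂ}
  {n : ℕ} {F : Fam B n} {X : Set B} {K : ℕ} {ε : ℝ}

theorem case_l (h2 : K_avgone.{u}) (hτ : IsTracialState τ) (hε : 0 ≤ ε)
    (hF : F.Good τ X K ε) (d : Fin n) (α β B1 B2 : F.Idx → B)
    (hα : ∀ s t, α (Function.update s d t) = α s) (hβ : ∀ s t, β (Function.update s d t) = β s)
    (hB1 : ∀ s t, B1 (Function.update s d t) = B1 s)
    (hB2 : ∀ s t, B2 (Function.update s d t) = B2 s)
    (nα : ∀ s, ‖α s‖ ≤ 1) (nβ : ∀ s, ‖β s‖ ≤ 1) (nB1 : ∀ s, ‖B1 s‖ ≤ 1)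
    (nB2 : ∀ s, ‖B2 s‖ ≤ 1) :
    ‖fav F.Idx (fun s => τ (α s * star (F.val s d : B) * β s) •
      (B1 s * (F.val s d : B) * B2 s))‖ ≤ ε := by
  have e := h2 n F.k B d (fun s => τ (α s * star (F.val s d : B) * β s) •
      (B1 s * (F.val s d : B) * B2 s))
  have e' : fav F.Idx (fun s => τ (α s * star (F.val s d : B) * β s) •
      (B1 s * (F.val s d : B) * B2 s)) = fav F.Idx (fun s => B1 s * (((F.k d + 1 : ℂ))⁻¹ •
        ∑ t, τ ((β s * α s) * star (F.g d t : B)) • (F.g d t : B)) * B2 s) := by
    refine e.trans ?_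
    congr 1
    funext s
    rw [mul_smul_comm, smul_mul_assoc, Finset.mul_sum, Finset.sum_mul]
    congr 1
    refine Finset.sum_congr rfl fun t _ => ?_
    rw [hα, hβ, hB1, hB2, val_update_self, mul_smul_comm, smul_mul_assoc]
    congr 1
    rw [hτ.comm, mul_assoc]
  rw [e']
  refine norm_fav_le _ hε fun s => ?_
  have h3 := hF.coefl d (β s * α s)
  have h4 : ‖β s * α s‖ ≤ 1 := nm (nβ s) (nα s)
  have h5 : ε * ‖β s * α s‖ ≤ ε := by
    calc ε * ‖β s * α s‖ ≤ ε * 1 := mul_le_mul_of_nonneg_left h4 hε
      _ = ε := mul_one _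
  calc ‖B1 s * (((F.k d + 1 : ℂ))⁻¹ •
        ∑ t, τ ((β s * α s) * star (F.g d t : B)) • (F.g d t : B)) * B2 s‖
      ≤ ‖B1 s‖ * ‖((F.k d + 1 : ℂ))⁻¹ •
        ∑ t, τ ((β s * α s) * star (F.g d t : B)) • (F.g d t : B)‖ * ‖B2 s‖ := norm_mul₃_le
    _ ≤ 1 * ε * 1 := by
        apply mul_le_mul (mul_le_mul (nB1 s) (h3.trans h5) (norm_nonneg _) zero_le_one) (nB2 s)
          (norm_nonneg _) (by linarith)
    _ = ε := by ring

theorem case_r (h2 : K_avgone.{u}) (hτ : IsTracialState τ) (hε : 0 ≤ ε)
    (hF : F.Good τ X K ε) (d : Fin n) (α β B1 B2 : F.Idx → B)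
    (hα : ∀ s t, α (Function.update s d t) = α s) (hβ : ∀ s t, β (Function.update s d t) = β s)
    (hB1 : ∀ s t, B1 (Function.update s d t) = B1 s)
    (hB2 : ∀ s t, B2 (Function.update s d t) = B2 s)
    (nα : ∀ s, ‖α s‖ ≤ 1) (nβ : ∀ s, ‖β s‖ ≤ 1) (nB1 : ∀ s, ‖B1 s‖ ≤ 1)
    (nB2 : ∀ s, ‖B2 s‖ ≤ 1) :
    ‖fav F.Idx (fun s => τ (α s * (F.val s d : B) * β s) •
      (B1 s * star (F.val s d : B) * B2 s))‖ ≤ ε := by
  have e := h2 n F.k B d (fun s => τ (α s * (F.val s d : B) * β s) •
      (B1 s * star (F.val s d : B) * B2 s))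
  have e' : fav F.Idx (fun s => τ (α s * (F.val s d : B) * β s) •
      (B1 s * star (F.val s d : B) * B2 s)) = fav F.Idx (fun s => B1 s * (((F.k d + 1 : ℂ))⁻¹ •
        ∑ t, τ ((β s * α s) * (F.g d t : B)) • star (F.g d t : B)) * B2 s) := by
    refine e.trans ?_
    congr 1
    funext s
    rw [mul_smul_comm, smul_mul_assoc, Finset.mul_sum, Finset.sum_mul]
    congr 1
    refine Finset.sum_congr rfl fun t _ => ?_
    rw [hα, hβ, hB1, hB2, val_update_self, mul_smul_comm, smul_mul_assoc]
    congr 1
    rw [hτ.comm, mul_assoc]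
  rw [e']
  refine norm_fav_le _ hε fun s => ?_
  have h3 := hF.coefr d (β s * α s)
  have h4 : ‖β s * α s‖ ≤ 1 := nm (nβ s) (nα s)
  have h5 : ε * ‖β s * α s‖ ≤ ε := by
    calc ε * ‖β s * α s‖ ≤ ε * 1 := mul_le_mul_of_nonneg_left h4 hε
      _ = ε := mul_one _
  calc ‖B1 s * (((F.k d + 1 : ℂ))⁻¹ •
        ∑ t, τ ((β s * α s) * (F.g d t : B)) • star (F.g d t : B)) * B2 s‖
      ≤ ‖B1 s‖ * ‖((F.k d + 1 : ℂ))⁻¹ •
        ∑ t, τ ((β s * α s) * (F.g d t : B)) • star (F.g d t : B)‖ * ‖B2 s‖ := norm_mul₃_le
    _ ≤ 1 * ε * 1 := by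
        apply mul_le_mul (mul_le_mul (nB1 s) (h3.trans h5) (norm_nonneg _) zero_le_one) (nB2 s)
          (norm_nonneg _) (by linarith)
    _ = ε := by ring

theorem perm_cases {s1 s1' : List (Fin n)} (h1 : s1.Nodup) (h1' : s1'.Nodup)
    (h : ¬ s1'.Perm s1) : ∃ d, (d ∈ s1 ∧ d ∉ s1') ∨ (d ∈ s1' ∧ d ∉ s1) := by
  by_contra hcon
  push Not at hcon
  apply h
  rw [List.perm_ext_iff_of_nodup h1' h1]
  intro a
  have := hcon a
  tauto

theorem main_word (h1 : K_indep.{u}) (h2 : K_avgone.{u}) (hτ : IsTracialState τ) (hε : 0 ≤ ε)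
    (hF : F.Good τ X K ε) (x : CStarMatrix (Fin n) (Fin n) B)
    (hX : ∀ i j, x i j ∈ X ∨ star (x i j) ∈ X) (hx : ∀ i j, ‖x i j‖ ≤ 1) :
    ∀ (N : ℕ) (i : Fin n) (σ σ' : List (Fin n)), σ.length = N → σ.Nodup → σ'.Perm σ →
      4 * N + 2 ≤ K →
    ‖fav F.Idx (fun s => star (rword x (F.val s) i σ) * rword x (F.val s) i σ') -
      algebraMap ℂ B (if σ = σ' then (pword (pmat τ x) i σ : ℂ) else 0)‖ ≤ 2 * N * ε := by
  intro N
  induction N using Nat.strong_induction_on with
  | _ N ih =>
  intro i σ σ' hN hnd hperm hK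
  rcases Nat.eq_zero_or_pos N with h0 | hpos
  · -- the empty word
    have e1 : σ = [] := List.length_eq_zero_iff.mp (by omega)
    subst e1
    have e2 : σ' = [] := hperm.eq_nil
    subst e2
    rw [if_pos rfl]
    simp only [rword, pword, star_one, mul_one, fav_const]
    simp only [Complex.ofReal_one, map_one, sub_self, norm_zero]
    positivity
  -- the largest letter
  have hne : σ.toFinset.Nonempty := by
    rw [List.toFinset_nonempty_iff]
    intro h
    rw [h] at hN
    simp at hN
    omega
  obtain ⟨c, hc, hmax⟩ := σ.toFinset.exists_max_image id hne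
  rw [List.mem_toFinset] at hc
  have hmax' : ∀ b ∈ σ, b ≤ c := fun b hb => hmax b (List.mem_toFinset.mpr hb)
  have hc' : c ∈ σ' := hperm.mem_iff.mpr hc
  have hnd' : σ'.Nodup := hperm.nodup_iff.mpr hnd
  have hlen' : σ'.length = N := hperm.length_eq.trans hN
  obtain ⟨s1, s2, hs⟩ := List.append_of_mem hc
  obtain ⟨s1', s2', hs'⟩ := List.append_of_mem hc'
  have m1 : c ∉ s1 ∧ c ∉ s2 ∧ s1.Nodup ∧ s2.Nodup ∧ ∀ a ∈ s1, a ∉ s2 := by
    have h := hnd
    rw [hs, List.nodup_middle, List.nodup_cons, List.mem_append, not_or, List.nodup_append] at h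
    exact ⟨h.1.1, h.1.2, h.2.1, h.2.2.1, fun a ha hb => h.2.2.2 a ha a hb rfl⟩
  have m1' : c ∉ s1' ∧ c ∉ s2' ∧ s1'.Nodup ∧ s2'.Nodup ∧ ∀ a ∈ s1', a ∉ s2' := by
    have h := hnd'
    rw [hs', List.nodup_middle, List.nodup_cons, List.mem_append, not_or, List.nodup_append] at h
    exact ⟨h.1.1, h.1.2, h.2.1, h.2.2.1, fun a ha hb => h.2.2.2 a ha a hb rfl⟩
  obtain ⟨mc1, mc2, mn1, mn2, mdis⟩ := m1
  obtain ⟨mc1', mc2', mn1', mn2', mdis'⟩ := m1'
  have hlen : N = s1.length + s2.length + 1 := by
    rw [← hN, hs, List.length_append, List.length_cons]; omega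
  have hlen2 : N = s1'.length + s2'.length + 1 := by
    rw [← hlen', hs', List.length_append, List.length_cons]; omega
  have hlt1 : ∀ b ∈ s1, b < c := by
    intro b hb
    refine lt_of_le_of_ne (hmax' b ?_) ?_
    · rw [hs]; exact List.mem_append_left _ hb
    · rintro rfl; exact mc1 hb
  have hlt1' : ∀ b ∈ s1', b < c := by
    intro b hb
    refine lt_of_le_of_ne (hmax' b (hperm.mem_iff.mp ?_)) ?_
    · rw [hs']; exact List.mem_append_left _ hb
    · rintro rfl; exact mc1' hb
  have heq : σ = σ' ↔ s1 = s1' ∧ s2 = s2' := by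
    rw [hs, hs']
    constructor
    · intro h
      have h' := (List.append_cons_inj_of_notMem mc1 mc2).mp h
      exact ⟨h'.1, h'.2.2⟩
    · rintro ⟨rfl, rfl⟩
      rfl
  -- notation
  obtain ⟨R, hR⟩ : ∃ R : F.Idx → B, R = fun s => rword x (F.val s) c s2 := ⟨_, rfl⟩
  obtain ⟨R', hR'⟩ : ∃ R' : F.Idx → B, R' = fun s => rword x (F.val s) c s2' := ⟨_, rfl⟩
  obtain ⟨P, hP⟩ : ∃ P : F.Idx → B, P = fun s => rword x (F.val s) i s1 := ⟨_, rfl⟩
  obtain ⟨P', hP'⟩ : ∃ P' : F.Idx → B, P' = fun s => rword x (F.val s) i s1' := ⟨_, rfl⟩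
  obtain ⟨A2, hA2⟩ : ∃ A2 : F.Idx → B, A2 = fun s => star (x (lst i s1) c) * star (P s) *
    P' s * x (lst i s1') c := ⟨_, rfl⟩
  have nR : ∀ s, ‖R s‖ ≤ 1 := fun s => by rw [hR]; exact norm_rword_le x hx _ _ _
  have nR' : ∀ s, ‖R' s‖ ≤ 1 := fun s => by rw [hR']; exact norm_rword_le x hx _ _ _
  have nP : ∀ s, ‖P s‖ ≤ 1 := fun s => by rw [hP]; exact norm_rword_le x hx _ _ _
  have nP' : ∀ s, ‖P' s‖ ≤ 1 := fun s => by rw [hP']; exact norm_rword_le x hx _ _ _
  have e0 : ∀ s, star (rword x (F.val s) i σ) * rword x (F.val s) i σ' =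
      star (R s) * (star (F.val s c : B) * A2 s * (F.val s c : B)) * R' s := by
    intro s
    rw [hs, hs', rword_append, rword_append, hR, hR', hA2, hP, hP']
    simp only [star_mul, mul_assoc]
  have uR : ∀ s t, R (Function.update s c t) = R s := by
    intro s t; rw [hR]; exact rword_update x s t mc2 c
  have uR' : ∀ s t, R' (Function.update s c t) = R' s := by
    intro s t; rw [hR']; exact rword_update x s t mc2' c
  have uP : ∀ s t, P (Function.update s c t) = P s := by
    intro s t; rw [hP]; exact rword_update x s t mc1 i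
  have uP' : ∀ s t, P' (Function.update s c t) = P' s := by
    intro s t; rw [hP']; exact rword_update x s t mc1' i
  have uA2 : ∀ s t, A2 (Function.update s c t) = A2 s := by
    intro s t
    rw [hA2]
    simp only [uP, uP']
  have wA2 : ∀ s, F.IsWord X K c (A2 s) := by
    intro s
    rw [hA2]
    have w1 := iw_star (isWord_entry (F := F) hX c (lst i s1) c)
    have w2 := iw_star (isWord_rword (F := F) hX s c s1 i hlt1)
    have w3 := isWord_rword (F := F) hX s c s1' i hlt1'
    have w4 := isWord_entry (F := F) hX c (lst i s1') c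
    rw [hP, hP']
    exact iw_mono (iw_mul (iw_mul (iw_mul w1 w2) w3) w4) (by omega)
  -- first step
  have step1 : ‖fav F.Idx (fun s => star (rword x (F.val s) i σ) * rword x (F.val s) i σ') -
      fav F.Idx (fun s => τ (A2 s) • (star (R s) * R' s))‖ ≤ ε := by
    have e1 : fav F.Idx (fun s => star (rword x (F.val s) i σ) * rword x (F.val s) i σ') =
        fav F.Idx (fun s => star (R s) * (((F.k c + 1 : ℂ))⁻¹ •
          ∑ t, star (F.g c t : B) * A2 s * (F.g c t : B)) * R' s) := by
      have e2 := h2 n F.k B c (fun s => star (R s) * (star (F.val s c : B) * A2 s *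
        (F.val s c : B)) * R' s)
      rw [show (fun s : F.Idx => star (rword x (F.val s) i σ) * rword x (F.val s) i σ') =
        fun s => star (R s) * (star (F.val s c : B) * A2 s * (F.val s c : B)) * R' s from
        funext e0]
      refine e2.trans ?_
      congr 1
      funext s
      rw [mul_smul_comm, smul_mul_assoc, Finset.mul_sum, Finset.sum_mul]
      congr 1
      refine Finset.sum_congr rfl fun t _ => ?_
      rw [uR, uR', uA2, val_update_self]
    rw [e1, ← fav_sub]
    refine norm_fav_le _ hε fun s => ?_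
    have e3 : ∀ Av : B, star (R s) * Av * R' s - τ (A2 s) • (star (R s) * R' s) =
        star (R s) * (Av - algebraMap ℂ B (τ (A2 s))) * R' s := by
      intro Av
      rw [mul_sub, sub_mul, Algebra.algebraMap_eq_smul_one, mul_smul_comm, mul_one,
        smul_mul_assoc]
    rw [e3]
    have h3 := hF.avgl c (A2 s) (wA2 s)
    calc _ ≤ ‖star (R s)‖ * ‖((F.k c + 1 : ℂ))⁻¹ •
          ∑ t, star (F.g c t : B) * A2 s * (F.g c t : B) - algebraMap ℂ B (τ (A2 s))‖ *
          ‖R' s‖ := norm_mul₃_le
      _ ≤ 1 * ε * 1 := by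
        apply mul_le_mul (mul_le_mul (nst (nR s)) h3 (norm_nonneg _) zero_le_one) (nR' s)
          (norm_nonneg _) (by linarith)
      _ = ε := by ring
  -- second step
  have step2 : ‖fav F.Idx (fun s => τ (A2 s) • (star (R s) * R' s)) -
      algebraMap ℂ B (if σ = σ' then (pword (pmat τ x) i σ : ℂ) else 0)‖ ≤
      (2 * N - 1) * ε := by
    have hNr : (N : ℝ) = s1.length + s2.length + 1 := by
      rw [hlen]; push_cast; ring
    by_cases hp : s1'.Perm s1
    · -- the letters before `c` agree
      have hp2 : s2'.Perm s2 := by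
        have q1 : (s1 ++ c :: s2').Perm (s1 ++ c :: s2) := by
          rw [← hs]
          refine List.Perm.trans ?_ hperm
          rw [hs']
          exact (hp.append_right (c :: s2')).symm
        exact (List.perm_cons c).mp ((List.perm_append_left_iff s1).mp q1)
      have i1 := ih s1.length (by omega) i s1 s1' rfl mn1 hp (by omega)
      have i2 := ih s2.length (by omega) c s2 s2' rfl mn2 hp2 (by omega)
      obtain ⟨q, hq⟩ : ∃ q : ℂ, q = if s1 = s1' then (pword (pmat τ x) i s1 : ℂ) else 0 :=
        ⟨_, rfl⟩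
      obtain ⟨b, hb⟩ : ∃ b : ℂ, b = if s2 = s2' then (pword (pmat τ x) c s2 : ℂ) else 0 :=
        ⟨_, rfl⟩
      rw [← hq] at i1
      rw [← hb] at i2
      have hp0 := pmat_nonneg hτ x
      have hp1 := pmat_le_one hτ x hx
      have nq : ‖q‖ ≤ 1 := by
        rw [hq]
        split_ifs
        · rw [Complex.norm_real, Real.norm_eq_abs, abs_of_nonneg (pword_nonneg _ hp0 _ _)]
          exact pword_le_one _ hp0 hp1 _ _
        · simp
      obtain ⟨z, hz⟩ : ∃ z : ℂ, z = τ (star (x (lst i s1) c) * x (lst i s1') c) := ⟨_, rfl⟩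
      have nz : ‖z‖ ≤ 1 := by
        rw [hz]
        exact (tau_norm_le hτ _).trans (nm (nst (hx _ _)) (hx _ _))
      have hfac := h1 n F.k B s1.toFinset (fun s => τ (A2 s)) (fun s => star (R s) * R' s)
        (by
          intro s s' hss
          have g1 : ∀ d ∈ s1, F.val s d = F.val s' d := by
            intro d hd
            unfold Fam.val
            rw [hss d (List.mem_toFinset.mpr hd)]
          have g2 : P s = P s' := by
            rw [hP]; exact rword_congr x _ _ _ _ g1
          have g3 : P' s = P' s' := by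
            rw [hP']; exact rword_congr x _ _ _ _ fun d hd => g1 d (hp.mem_iff.mp hd)
          simp only [hA2, g2, g3])
        (by
          intro s s' hss
          have g1 : ∀ d ∈ s2, F.val s d = F.val s' d := by
            intro d hd
            unfold Fam.val
            rw [hss d (fun hh => mdis d (List.mem_toFinset.mp hh) hd)]
          have g2 : R s = R s' := by
            rw [hR]; exact rword_congr x _ _ _ _ g1
          have g3 : R' s = R' s' := by
            rw [hR']; exact rword_congr x _ _ _ _ fun d hd => g1 d (hp2.mem_iff.mp hd)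
          simp only [g2, g3])
      have hfac' : fav F.Idx (fun s => τ (A2 s) • (star (R s) * R' s)) =
          fav F.Idx (fun s => τ (A2 s)) • fav F.Idx (fun s => star (R s) * R' s) := hfac
      rw [hfac']
      have hf : fav F.Idx (fun s => τ (A2 s)) = τ (star (x (lst i s1) c) *
          fav F.Idx (fun s => star (P s) * P' s) * x (lst i s1') c) := by
        rw [← fav_mul_mul, ← fav_map τ]
        congr 1
        rw [hA2]
        simp only [mul_assoc]
      have i1' : ‖fav F.Idx (fun s => star (P s) * P' s) - algebraMap ℂ B q‖ ≤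
          2 * s1.length * ε := by
        rw [hP, hP']; exact i1
      have i2' : ‖fav F.Idx (fun s => star (R s) * R' s) - algebraMap ℂ B b‖ ≤
          2 * s2.length * ε := by
        rw [hR, hR']; exact i2
      have hfa : ‖fav F.Idx (fun s => τ (A2 s)) - q * z‖ ≤ 2 * s1.length * ε := by
        have e4 : fav F.Idx (fun s => τ (A2 s)) - q * z = τ (star (x (lst i s1) c) *
          (fav F.Idx (fun s => star (P s) * P' s) - algebraMap ℂ B q) * x (lst i s1') c) := by
          rw [hf, hz, mul_sub, sub_mul, map_sub, Algebra.algebraMap_eq_smul_one, mul_smul_comm,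
            mul_one, smul_mul_assoc, map_smul, smul_eq_mul]
        rw [e4]
        refine (tau_norm_le hτ _).trans ?_
        calc _ ≤ ‖star (x (lst i s1) c)‖ *
              ‖fav F.Idx (fun s => star (P s) * P' s) - algebraMap ℂ B q‖ *
              ‖x (lst i s1') c‖ := norm_mul₃_le
          _ ≤ 1 * (2 * s1.length * ε) * 1 := by
            apply mul_le_mul (mul_le_mul (nst (hx _ _)) i1' (norm_nonneg _) zero_le_one) (hx _ _)
              (norm_nonneg _) (by positivity)
          _ = 2 * s1.length * ε := by ring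
      have nh : ‖fav F.Idx (fun s => star (R s) * R' s)‖ ≤ 1 :=
        norm_fav_le _ zero_le_one fun s => nm (nst (nR s)) (nR' s)
      have htar : (if σ = σ' then (pword (pmat τ x) i σ : ℂ) else 0) = (q * z) * b := by
        by_cases e1 : s1 = s1'
        · by_cases e2 : s2 = s2'
          · rw [if_pos (heq.mpr ⟨e1, e2⟩), hq, hb, if_pos e1, if_pos e2, hz, ← e1,
              ← pmat_cast hτ, hs, pword_append]
            push_cast
            ring
          · rw [if_neg (fun h => e2 (heq.mp h).2), hb, if_neg e2, mul_zero]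
        · rw [if_neg (fun h => e1 (heq.mp h).1), hq, if_neg e1, zero_mul, zero_mul]
      rw [htar]
      have e5 : fav F.Idx (fun s => τ (A2 s)) • fav F.Idx (fun s => star (R s) * R' s) -
          algebraMap ℂ B ((q * z) * b) =
          (fav F.Idx (fun s => τ (A2 s)) - q * z) • fav F.Idx (fun s => star (R s) * R' s) +
          (q * z) • (fav F.Idx (fun s => star (R s) * R' s) - algebraMap ℂ B b) := by
        rw [sub_smul, smul_sub, map_mul, ← Algebra.smul_def]
        abel
      rw [e5]
      refine (norm_add_le _ _).trans ?_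
      rw [norm_smul, norm_smul]
      have nqz : ‖q * z‖ ≤ 1 := by
        rw [norm_mul]
        exact mul_le_one₀ nq (norm_nonneg _) nz
      have f1 : ‖fav F.Idx (fun s => τ (A2 s)) - q * z‖ *
          ‖fav F.Idx (fun s => star (R s) * R' s)‖ ≤ (2 * s1.length * ε) * 1 :=
        mul_le_mul hfa nh (norm_nonneg _) (by positivity)
      have f2 : ‖q * z‖ * ‖fav F.Idx (fun s => star (R s) * R' s) - algebraMap ℂ B b‖ ≤
          1 * (2 * s2.length * ε) :=
        mul_le_mul nqz i2' (norm_nonneg _) zero_le_one
      rw [hNr]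
      linarith
    · -- the letters before `c` differ
      have hne' : ¬ σ = σ' := by
        intro h
        apply hp
        rw [(heq.mp h).1]
      rw [if_neg hne', map_zero, sub_zero]
      have hN1 : (1 : ℝ) ≤ N := by exact_mod_cast hpos
      have hfin : ε ≤ (2 * N - 1) * ε := by nlinarith
      refine le_trans ?_ hfin
      obtain ⟨d, hd | hd⟩ := perm_cases mn1 mn1' hp
      · -- `d ∈ s1`, `d ∉ s1'`
        obtain ⟨hd1, hd1'⟩ := hd
        have hdc : d ≠ c := by rintro rfl; exact mc1 hd1
        have hd2 : d ∉ s2 := mdis d hd1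
        have hd2' : d ∈ s2' := by
          have : d ∈ σ' := hperm.mem_iff.mpr (by rw [hs]; exact List.mem_append_left _ hd1)
          rw [hs', List.mem_append, List.mem_cons] at this
          tauto
        obtain ⟨a, v, hav⟩ := List.append_of_mem hd1
        obtain ⟨a', v', hav'⟩ := List.append_of_mem hd2'
        have g1 : d ∉ a ∧ d ∉ v := by
          have h := mn1
          rw [hav, List.nodup_middle, List.nodup_cons, List.mem_append, not_or] at h
          exact h.1
        have g2 : d ∉ a' ∧ d ∉ v' := by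
          have h := mn2'
          rw [hav', List.nodup_middle, List.nodup_cons, List.mem_append, not_or] at h
          exact h.1
        have hT : (fun s : F.Idx => τ (A2 s) • (star (R s) * R' s)) = fun s =>
            τ ((star (x (lst i s1) c) * star (rword x (F.val s) d v)) *
              star (F.val s d : B) * (star (rword x (F.val s) i a * x (lst i a) d) * P' s *
                x (lst i s1') c)) •
            ((star (R s) * (rword x (F.val s) c a' * x (lst c a') d)) * (F.val s d : B) *
              rword x (F.val s) d v') := by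
          funext s
          congr 1
          · congr 1
            rw [hA2]
            simp only []
            rw [show P s = rword x (F.val s) i a * x (lst i a) d * (F.val s d : B) *
              rword x (F.val s) d v by rw [hP]; simp only []; rw [hav, rword_append]]
            simp only [star_mul, mul_assoc]
          · rw [show R' s = rword x (F.val s) c a' * x (lst c a') d * (F.val s d : B) *
              rword x (F.val s) d v' by rw [hR']; simp only []; rw [hav', rword_append]]
            simp only [mul_assoc]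
        rw [hT]
        apply case_l h2 hτ hε hF d
        · intro s t
          rw [rword_update x s t g1.2]
        · intro s t
          rw [rword_update x s t g1.1, hP']
          simp only []
          rw [rword_update x s t hd1']
        · intro s t
          rw [rword_update x s t g2.1, hR]
          simp only []
          rw [rword_update x s t hd2]
        · intro s t
          rw [rword_update x s t g2.2]
        · intro s
          exact nm (nst (hx _ _)) (nst (norm_rword_le x hx _ _ _))
        · intro s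
          exact nm (nm (nst (nm (norm_rword_le x hx _ _ _) (hx _ _))) (nP' s)) (hx _ _)
        · intro s
          exact nm (nst (nR s)) (nm (norm_rword_le x hx _ _ _) (hx _ _))
        · intro s
          exact norm_rword_le x hx _ _ _
      · -- `d ∈ s1'`, `d ∉ s1`
        obtain ⟨hd1', hd1⟩ := hd
        have hdc : d ≠ c := by rintro rfl; exact mc1' hd1'
        have hd2' : d ∉ s2' := mdis' d hd1'
        have hd2 : d ∈ s2 := by
          have : d ∈ σ := hperm.mem_iff.mp (by rw [hs']; exact List.mem_append_left _ hd1')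
          rw [hs, List.mem_append, List.mem_cons] at this
          tauto
        obtain ⟨a, v, hav⟩ := List.append_of_mem hd1'
        obtain ⟨a', v', hav'⟩ := List.append_of_mem hd2
        have g1 : d ∉ a ∧ d ∉ v := by
          have h := mn1'
          rw [hav, List.nodup_middle, List.nodup_cons, List.mem_append, not_or] at h
          exact h.1
        have g2 : d ∉ a' ∧ d ∉ v' := by
          have h := mn2
          rw [hav', List.nodup_middle, List.nodup_cons, List.mem_append, not_or] at h
          exact h.1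
        have hT : (fun s : F.Idx => τ (A2 s) • (star (R s) * R' s)) = fun s =>
            τ ((star (x (lst i s1) c) * star (P s) * (rword x (F.val s) i a * x (lst i a) d)) *
              (F.val s d : B) * (rword x (F.val s) d v * x (lst i s1') c)) •
            ((star (rword x (F.val s) d v')) * star (F.val s d : B) *
              (star (rword x (F.val s) c a' * x (lst c a') d) * R' s)) := by
          funext s
          congr 1
          · congr 1
            rw [hA2]
            simp only []
            rw [show P' s = rword x (F.val s) i a * x (lst i a) d * (F.val s d : B) *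
              rword x (F.val s) d v by rw [hP']; simp only []; rw [hav, rword_append]]
            simp only [star_mul, mul_assoc]
          · rw [show R s = rword x (F.val s) c a' * x (lst c a') d * (F.val s d : B) *
              rword x (F.val s) d v' by rw [hR]; simp only []; rw [hav', rword_append]]
            simp only [star_mul, mul_assoc]
        rw [hT]
        apply case_r h2 hτ hε hF d
        · intro s t
          rw [rword_update x s t g1.1, hP]
          simp only []
          rw [rword_update x s t hd1]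
        · intro s t
          rw [rword_update x s t g1.2]
        · intro s t
          rw [rword_update x s t g2.2]
        · intro s t
          rw [rword_update x s t g2.1, hR']
          simp only []
          rw [rword_update x s t hd2']
        · intro s
          exact nm (nm (nst (hx _ _)) (nst (nP s))) (nm (norm_rword_le x hx _ _ _) (hx _ _))
        · intro s
          exact nm (norm_rword_le x hx _ _ _) (hx _ _)
        · intro s
          exact nst (norm_rword_le x hx _ _ _)
        · intro s
          exact nm (nst (nm (norm_rword_le x hx _ _ _) (hx _ _))) (nR' s)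
  have := norm_sub_le_norm_sub_add_norm_sub
    (fav F.Idx (fun s => star (rword x (F.val s) i σ) * rword x (F.val s) i σ'))
    (fav F.Idx (fun s => τ (A2 s) • (star (R s) * R' s)))
    (algebraMap ℂ B (if σ = σ' then (pword (pmat τ x) i σ : ℂ) else 0))
  linarith

end main

end A06

theorem prove3_word (h1 : K_indep.{u}) (h2 : K_avgone.{u}) : K_word.{u} := by
  intro B _ _ _ τ hτ n F X x K ε hε hF hX hx i σ σ' hnd hperm hK
  exact A06.main_word h1 h2 hτ hε hF x hX hx σ.length i σ σ' rfl hnd hperm hK

end H759R2.Kad
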